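import Pool.Agent.W353.AT.Defs

/-!
# The tensor powers of the cohomology at all points of the edge line: definitions

`X` is a smooth projective variety over a number field `K`, of dimension `d`, `N` its `i`-th Betti number
and `χ` an Artin representation of `K`.  The tensor power `H^i(X)^{⊗ r}` is a part of `H^{ri}(X^r)`.
The edge line of `L(H^i(X)^{⊗ r} ⊗ χ, s)` is the line `Re s = r i / 2 + 1`.
-/

set_option autoImplicit false

namespace Pool.Agent.U544.MZ

open NumberField IsDedekindDomain Filter Topology Polynomial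
open Pool.Agent.W353.EF (IsFrobenius LFun)
open Pool.Agent.W353.EH (edgePoint size)
open Pool.Agent.W353.AT (IsFrobeniusElement)

/-- The polynomials `B v` are the Euler factors of `L(H^i(X)^{⊗ r} ⊗ χ, s)`: for almost all primes `v`,
`B_v(z) = ∏ det(1 - α_{f(1)} ⋯ α_{f(r)} z χ(σ⁻¹))` for the eigenvalues `α_1, …, α_N` of the geometric
Frobenius `σ⁻¹` on `H^i(X)`, the product over all `f : {1, …, r} → {1, …, N}`; at the other primes `B v`
is an arbitrary polynomial, and no factor `1 / B_v(q_v^{-s})` has a pole at the point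
`s = r i / 2 + 1 + iτ` of the edge line. -/
def IsPowerSystemAt {K : Type} [Field K] [NumberField K] {l : ℕ}
    (X : Set (MvPolynomial (Fin l) (𝓞 K))) (d i N : ℕ) {n : ℕ}
    (χ : Representation ℂ Gal(AlgebraicClosure K/K) (Fin n → ℂ)) (τ : ℝ) (r : ℕ)
    (B : HeightOneSpectrum (𝓞 K) → ℂ[X]) : Prop :=
  (∀ᶠ v in cofinite, ∃ α : Fin N → ℂ, IsFrobenius X d i v α ∧
    ∀ σ, IsFrobeniusElement v σ → ∀ z : ℂ, (B v).eval z =
      ∏ f : Fin r → Fin N, LinearMap.det (1 - ((∏ j, α (f j)) * z) • χ σ⁻¹)) ∧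
  ∀ v, (B v).eval ((Ideal.absNorm v.asIdeal : ℂ) ^ (-edgePoint (r * i) τ)) ≠ 0

/-- `S` is a set of positive integers, all of the parity of `e`, and the sum of the reciprocals of its
elements diverges (for example the set of all large primes, for `e = 1`). -/
def IsMuntz (e : ℕ) (S : Set ℕ) : Prop :=
  (∀ s ∈ S, 1 ≤ s ∧ (Even s ↔ Even e)) ∧ ¬ Summable (fun s : S => (1 : ℝ) / (s : ℕ))

end Pool.Agent.U544.MZ
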