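import Pool.Agent.U544.MZ.Size

/-! The transfer of the orders from the exponents in `S` to all exponents of the same parity. -/

set_option autoImplicit false

namespace Pool.Agent.U544.MZ

open Complex Filter Topology NumberField IsDedekindDomain Polynomial
open Pool.Agent.W401.Cheb Pool.Agent.W353.L1 Pool.Agent.W540.BE
open Pool.Agent.W353.EF (LFun)
open Pool.Agent.W353.EH (edgePoint size HasOrder)
open Pool.Agent.W353.AT (IsArtin)

section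
variable {K : Type} [Field K] [NumberField K] {k : ℕ} {X : Set (MvPolynomial (Fin k) (𝓞 K))}
  {d i N : ℕ}

theorem size_of_order_at {B : HeightOneSpectrum (𝓞 K) → ℂ[X]} {j : ℕ} {τ : ℝ} {m : ℤ}
    (hnz : ∀ᶠ ε : ℝ in 𝓝[>] 0, LFun B (edgePoint j τ + ε) ≠ 0) (h : HasOrder j τ B m) :
    Tendsto (size j τ B) (𝓝[>] 0) (𝓝 (-(m : ℝ))) := by
  obtain ⟨Λ, h1, h2, h3⟩ := h
  exact Pool.Agent.W353.PV.lim_ord hnz h1 (h2.mono fun s hs hs' => hs (by
    rw [Pool.Agent.W353.AT.edge_re] at hs'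
    exact hs')) h3

theorem nonvanishing (hi : i ≤ 2 * d) {n : ℕ} (χ : Representation ℂ (GK K) (Fin n → ℂ))
    (hχ : IsArtin χ) (τ : ℝ) {r : ℕ} {B : HeightOneSpectrum (𝓞 K) → ℂ[X]}
    (hr : IsPowerSystemAt X d i N χ τ r B) :
    ∀ᶠ ε : ℝ in 𝓝[>] 0, LFun B (edgePoint (r * i) τ + ε) ≠ 0 := by
  choose σ hσ using exists_isFrob (F := K)
  exact (power_size_at hi hσ r χ hχ τ B hr).1

end

/-- **The universal relations.** -/
theorem universal {e : ℕ} {S : Set ℕ} (hS : IsMuntz e S) {r : ℕ} (hr1 : 1 ≤ r)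
    (hr : Even r ↔ Even e) (N n : ℕ) {η : ℝ} (hη : 0 < η) :
    ∃ (Λ : Finset ℕ) (a : ℕ → ℝ), (∀ l ∈ Λ, l ∈ S) ∧
      ∀ {K : Type} [Field K] [NumberField K] {k : ℕ} {X : Set (MvPolynomial (Fin k) (𝓞 K))}
        {d i N' : ℕ}, i ≤ 2 * d → N' ≤ N → ∀ {n' : ℕ}, n' ≤ n →
        ∀ (χ : Representation ℂ (GK K) (Fin n' → ℂ)), IsArtin χ → ∀ (τ : ℝ)
          (B : ℕ → HeightOneSpectrum (𝓞 K) → ℂ[X]), IsPowerSystemAt X d i N' χ τ r (B r) →
          (∀ l ∈ Λ, IsPowerSystemAt X d i N' χ τ l (B l)) →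
          ∀ᶠ ε : ℝ in 𝓝[>] 0,
            |size (r * i) τ (B r) ε - ∑ l ∈ Λ, a l * size (l * i) τ (B l) ε| ≤ η := by
  obtain ⟨Λ, a, hΛ, ha⟩ := muntz_sym hS hr1 hr N (η := η / 2 / (n + 1)) (by positivity)
  refine ⟨Λ, a, hΛ, ?_⟩
  intro K _ _ k X d i N' hi hN n' hn χ hχ τ B hBr hB
  have h := relation hi χ hχ τ (δ := η / 2 / (n + 1)) (Λ := Λ) (a := a) (r := r)
    (fun t ht => ha t (ht.trans (by exact_mod_cast hN))) B hBr hB (η := η / 2) (by positivity)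
  refine h.mono fun ε hε => hε.trans ?_
  have h1 : (n' : ℝ) ≤ n + 1 := by
    have : (n' : ℝ) ≤ n := by exact_mod_cast hn
    linarith
  have h2 : (n' : ℝ) * (η / 2 / (n + 1)) ≤ (n + 1) * (η / 2 / (n + 1)) :=
    mul_le_mul_of_nonneg_right h1 (by positivity)
  have h3 : ((n : ℝ) + 1) * (η / 2 / (n + 1)) = η / 2 := by field_simp
  linarith

/-- **The transfer of asymptotic equality.** -/
theorem transfer {e : ℕ} {S : Set ℕ} (hS : IsMuntz e S) {r : ℕ} (hr1 : 1 ≤ r)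
    (hr : Even r ↔ Even e)
    {K : Type} [Field K] [NumberField K] {k : ℕ} {X : Set (MvPolynomial (Fin k) (𝓞 K))}
    {d i N n : ℕ} (hi : i ≤ 2 * d) (χ : Representation ℂ (GK K) (Fin n → ℂ)) (hχ : IsArtin χ) (τ : ℝ)
    (B : ℕ → HeightOneSpectrum (𝓞 K) → ℂ[X]) (hBr : IsPowerSystemAt X d i N χ τ r (B r))
    (hB : ∀ l ∈ S, IsPowerSystemAt X d i N χ τ l (B l))
    {K' : Type} [Field K'] [NumberField K'] {k' : ℕ} {X' : Set (MvPolynomial (Fin k') (𝓞 K'))}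
    {d' i' N' n' : ℕ} (hi' : i' ≤ 2 * d') (χ' : Representation ℂ (GK K') (Fin n' → ℂ))
    (hχ' : IsArtin χ') (τ' : ℝ)
    (B' : ℕ → HeightOneSpectrum (𝓞 K') → ℂ[X])
    (hBr' : IsPowerSystemAt X' d' i' N' χ' τ' r (B' r))
    (hB' : ∀ l ∈ S, IsPowerSystemAt X' d' i' N' χ' τ' l (B' l))
    (h : ∀ l ∈ S, Tendsto (fun ε => size (l * i) τ (B l) ε - size (l * i') τ' (B' l) ε)
      (𝓝[>] 0) (𝓝 0)) :
    Tendsto (fun ε => size (r * i) τ (B r) ε - size (r * i') τ' (B' r) ε) (𝓝[>] 0) (𝓝 0) := by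
  rw [Metric.tendsto_nhds]
  intro η hη
  obtain ⟨Λ, a, hΛ, ha⟩ := universal hS hr1 hr (max N N') (max n n') (η := η / 4) (by positivity)
  have h1 := ha hi (le_max_left _ _) (le_max_left _ _) χ hχ τ B hBr fun l hl => hB l (hΛ l hl)
  have h2 := ha hi' (le_max_right _ _) (le_max_right _ _) χ' hχ' τ' B' hBr'
    fun l hl => hB' l (hΛ l hl)
  have h3 : Tendsto (fun ε => ∑ l ∈ Λ, a l * (size (l * i) τ (B l) ε - size (l * i') τ' (B' l) ε))
      (𝓝[>] 0) (𝓝 0) := by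
    have h4 := tendsto_finsetSum
      (f := fun l ε => a l * (size (l * i) τ (B l) ε - size (l * i') τ' (B' l) ε))
      (a := fun l => a l * 0) Λ fun l hl => (h l (hΛ l hl)).const_mul (a l)
    simpa using h4
  filter_upwards [h1, h2, (Metric.tendsto_nhds.1 h3) (η / 4) (by positivity)] with ε h5 h6 h7
  rw [Real.dist_eq, sub_zero] at h7 ⊢
  have h8 : ∑ l ∈ Λ, a l * (size (l * i) τ (B l) ε - size (l * i') τ' (B' l) ε) =
      ∑ l ∈ Λ, a l * size (l * i) τ (B l) ε - ∑ l ∈ Λ, a l * size (l * i') τ' (B' l) ε := by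
    rw [← Finset.sum_sub_distrib]
    exact Finset.sum_congr rfl fun l _ => by ring
  rw [h8] at h7
  rw [abs_le] at h5 h6
  rw [abs_lt] at h7 ⊢
  constructor <;> linarith [h5.1, h5.2, h6.1, h6.2, h7.1, h7.2]

/-- **The transfer of convergence.** -/
theorem converge {e : ℕ} {S : Set ℕ} (hS : IsMuntz e S) {r : ℕ} (hr1 : 1 ≤ r)
    (hr : Even r ↔ Even e)
    {K : Type} [Field K] [NumberField K] {k : ℕ} {X : Set (MvPolynomial (Fin k) (𝓞 K))}
    {d i N n : ℕ} (hi : i ≤ 2 * d) (χ : Representation ℂ (GK K) (Fin n → ℂ)) (hχ : IsArtin χ) (τ : ℝ)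
    (B : ℕ → HeightOneSpectrum (𝓞 K) → ℂ[X]) (hBr : IsPowerSystemAt X d i N χ τ r (B r))
    (hB : ∀ l ∈ S, IsPowerSystemAt X d i N χ τ l (B l))
    (h : ∀ l ∈ S, ∃ x : ℝ, Tendsto (size (l * i) τ (B l)) (𝓝[>] 0) (𝓝 x)) :
    ∃ x : ℝ, Tendsto (size (r * i) τ (B r)) (𝓝[>] 0) (𝓝 x) := by
  have hc : Cauchy (Filter.map (size (r * i) τ (B r)) (𝓝[>] 0)) := by
    rw [Metric.cauchy_iff]
    refine ⟨inferInstance, fun η hη => ?_⟩
    obtain ⟨Λ, a, hΛ, ha⟩ := universal hS hr1 hr N n (η := η / 5) (by positivity)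
    have h1 := ha hi le_rfl le_rfl χ hχ τ B hBr fun l hl => hB l (hΛ l hl)
    have h2 : ∃ y : ℝ, Tendsto (fun ε => ∑ l ∈ Λ, a l * size (l * i) τ (B l) ε)
        (𝓝[>] 0) (𝓝 y) := by
      choose! x hx using h
      exact ⟨∑ l ∈ Λ, a l * x l, tendsto_finsetSum Λ fun l hl =>
        (hx l (hΛ l hl)).const_mul (a l)⟩
    obtain ⟨y, hy⟩ := h2
    refine ⟨{x | |x - y| < 2 * η / 5}, ?_, fun u hu v hv => ?_⟩
    · rw [Filter.mem_map]
      filter_upwards [h1, (Metric.tendsto_nhds.1 hy) (η / 5) (by positivity)] with ε h3 h4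
      rw [Real.dist_eq] at h4
      show |size (r * i) τ (B r) ε - y| < 2 * η / 5
      rw [abs_le] at h3
      rw [abs_lt] at h4 ⊢
      constructor <;> linarith [h3.1, h3.2, h4.1, h4.2]
    · rw [Real.dist_eq]
      have hu' : |u - y| < 2 * η / 5 := hu
      have hv' : |v - y| < 2 * η / 5 := hv
      rw [abs_lt] at hu' hv' ⊢
      constructor <;> linarith [hu'.1, hu'.2, hv'.1, hv'.2]
  obtain ⟨x, hx⟩ := cauchy_iff_exists_le_nhds.1 hc
  exact ⟨x, hx⟩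

end Pool.Agent.U544.MZ
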