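import Pool.Agent.R440.TP.Alg
import Pool.Agent.U544.MZ.Defs

/-! Müntz approximation of `t ^ r` on `[-N, N]` by powers `t ^ l`, `l ∈ S`, of the same parity. -/

set_option autoImplicit false

namespace Pool.Agent.U544.MZ

open Finset

theorem pow_neg_parity {e m : ℕ} (h : Even m ↔ Even e) (t : ℝ) :
    (-t) ^ m = (if Even e then 1 else -1) * t ^ m := by
  by_cases he : Even e
  · rw [if_pos he, (h.2 he).neg_pow, one_mul]
  · rw [if_neg he, (Nat.not_even_iff_odd.1 (fun h' => he (h.1 h'))).neg_pow]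
    ring

theorem muntz_sym {e : ℕ} {S : Set ℕ} (hS : IsMuntz e S) {r : ℕ} (hr1 : 1 ≤ r)
    (hr : Even r ↔ Even e) (N : ℕ) {η : ℝ} (hη : 0 < η) :
    ∃ (Λ : Finset ℕ) (a : ℕ → ℝ), (∀ l ∈ Λ, l ∈ S) ∧
      ∀ t : ℝ, |t| ≤ N → |t ^ r - ∑ l ∈ Λ, a l * t ^ l| ≤ η := by
  classical
  by_cases hrS : r ∈ S
  · refine ⟨{r}, fun _ => 1, fun l hl => ?_, fun t _ => ?_⟩
    · rw [mem_singleton] at hl
      rw [hl]
      exact hrS
    · rw [sum_singleton, one_mul, sub_self, abs_zero]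
      exact hη.le
  rcases Nat.eq_zero_or_pos N with hN | hN
  · refine ⟨∅, fun _ => 0, fun l hl => absurd hl (notMem_empty _), fun t ht => ?_⟩
    have h0 : t = 0 := by
      rw [hN, Nat.cast_zero] at ht
      exact abs_eq_zero.1 (le_antisymm ht (abs_nonneg _))
    rw [sum_empty, sub_zero, h0, zero_pow (by omega), abs_zero]
    exact hη.le
  have hN0 : (0 : ℝ) < N := by exact_mod_cast hN
  obtain ⟨Λ, hΛ⟩ := Pool.Agent.R440.TP.muntz_small r S hS.2 (η / (N : ℝ) ^ r) (by positivity)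
  rcases hΛ with ⟨hΛ1, hΛ2⟩ | h0
  swap
  · omega
  obtain ⟨a, ha⟩ := Pool.Agent.R440.TP.muntz_poly r hr1 Λ (fun l hl => (hS.1 l (hΛ1 l hl).1).1)
    (fun h => hrS (hΛ1 r h).1)
  set b : ℕ → ℝ := fun l => a l * (N : ℝ) ^ r / (N : ℝ) ^ l with hb
  have hpos : ∀ t : ℝ, 0 ≤ t → t ≤ N → |t ^ r - ∑ l ∈ Λ, b l * t ^ l| ≤ η := by
    intro t ht0 htN
    have h1 := (ha (t / N) ⟨by positivity, by rw [div_le_one hN0]; exact htN⟩).trans hΛ2
    have h2 : t ^ r - ∑ l ∈ Λ, b l * t ^ l =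
        (N : ℝ) ^ r * ((t / N) ^ r - ∑ l ∈ Λ, a l * (t / N) ^ l) := by
      rw [mul_sub, Finset.mul_sum]
      congr 1
      · rw [div_pow]
        field_simp
      · refine Finset.sum_congr rfl fun l _ => ?_
        rw [hb, div_pow]
        field_simp
    rw [h2, abs_mul, abs_of_pos (by positivity)]
    calc (N : ℝ) ^ r * |(t / N) ^ r - ∑ l ∈ Λ, a l * (t / N) ^ l|
        ≤ (N : ℝ) ^ r * (η / (N : ℝ) ^ r) := mul_le_mul_of_nonneg_left h1 (by positivity)
      _ = η := by field_simp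
  refine ⟨Λ, b, fun l hl => (hΛ1 l hl).1, fun t ht => ?_⟩
  rcases le_total 0 t with h | h
  · exact hpos t h (by rwa [abs_of_nonneg h] at ht)
  · have h1 := hpos (-t) (by linarith) (by rwa [abs_of_nonpos h] at ht)
    have h2 : (-t) ^ r - ∑ l ∈ Λ, b l * (-t) ^ l =
        (if Even e then 1 else -1) * (t ^ r - ∑ l ∈ Λ, b l * t ^ l) := by
      rw [pow_neg_parity hr, mul_sub, Finset.mul_sum]
      congr 1
      refine Finset.sum_congr rfl fun l hl => ?_
      rw [pow_neg_parity (hS.1 l (hΛ1 l hl).1).2]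
      ring
    rw [h2, abs_mul] at h1
    have h3 : |(if Even e then (1 : ℝ) else -1)| = 1 := by
      split_ifs <;> simp
    rwa [h3, one_mul] at h1

end Pool.Agent.U544.MZ
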