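import Pool.Agent.Y139.SM.TPow
import Pool.Agent.U544.MZ.Poly

/-! The sizes of the `L`-functions of the tensor powers of `H^i(X)` at all points of the edge line, and the
relations between them. -/

set_option autoImplicit false

namespace Pool.Agent.U544.MZ

open Complex Filter Topology ComplexConjugate NumberField IsDedekindDomain Asymptotics
  Pool.Agent.W401.Cheb Pool.Agent.W540.BE Pool.Agent.W353.L1 Polynomial
open Pool.Agent.H341R2 (lam lam_tendsto)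
open Pool.Agent.W353.PV (tF Eig alp pick pick_spec)
open Pool.Agent.W353.EF (LFun)
open Pool.Agent.W353.EH (edgePoint size HasOrder)
open Pool.Agent.W353.AT (IsArtin exists_common)
open Pool.Agent.Y139.SM (prods prods_sum prods_prod EP_cofinite)

section
variable {K : Type} [Field K] [NumberField K] {l : ℕ} {X : Set (MvPolynomial (Fin l) (𝓞 K))}
  {d i N : ℕ}

theorem edge_gen_at (r : ℕ) (τ : ℝ) : ((((r : ℝ) * ((i : ℝ) / 2) : ℝ)) : ℂ) + 1 + (τ : ℂ) * I =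
    edgePoint (r * i) τ := by
  unfold edgePoint
  push_cast
  ring

/-- **The sizes of the tensor powers of the cohomology.** -/
theorem power_size_at (hi : i ≤ 2 * d) {σ : HeightOneSpectrum (𝓞 K) → GK K}
    (hσ : ∀ v, IsFrob v (σ v))
    (r : ℕ) {n : ℕ} (χ : Representation ℂ (GK K) (Fin n → ℂ)) (hχ : IsArtin χ)
    (τ : ℝ) (B : HeightOneSpectrum (𝓞 K) → ℂ[X]) (hB : IsPowerSystemAt X d i N χ τ r B) :
    (∀ᶠ ε : ℝ in 𝓝[>] 0, LFun B (edgePoint (r * i) τ + ε) ≠ 0) ∧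
    Tendsto (fun ε : ℝ => (EP (nm K) ε fun v => (tF X d i N K v) ^ r * RR χ τ σ v) / lam ε -
      size (r * i) τ B ε) (𝓝[>] 0) (𝓝 0) := by
  classical
  obtain ⟨U, hUn, hU, hx1⟩ := exists_common (κ := Unit) (n := fun _ => n)
    (fun _ => χ) fun _ => hχ
  have hx1 : ∀ u ∈ U, χ u = 1 := hx1 ()
  have hfin : Finite (GK K ⧸ U) := Subgroup.quotient_finite_of_isOpen U hU
  set β : HeightOneSpectrum (𝓞 K) → Fin N → ℂ := fun v =>
    pick fun α => Eig X d i v α ∧ ∀ σ, IsFrob v σ → ∀ z : ℂ, (B v).eval z =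
      ∏ f : Fin r → Fin N, LinearMap.det (1 - ((∏ j, α (f j)) * z) • χ σ⁻¹) with hβ
  have hb : ∀ᶠ v in cofinite, Eig X d i v (β v) ∧
      ∀ σ, IsFrob v σ → ∀ z : ℂ, (B v).eval z =
        ∏ f : Fin r → Fin N, LinearMap.det (1 - ((∏ j, β v (f j)) * z) • χ σ⁻¹) :=
    hB.1.mono fun v hv => pick_spec hv
  have hq0 : ∀ v : HeightOneSpectrum (𝓞 K), (0 : ℝ) < (nm K v : ℝ) := fun v => by
    have := Pool.Agent.W353.L1.nm_pos v
    exact_mod_cast this
  have hnorm0 : ∀ᶠ v in cofinite, ∀ j, ‖β v j‖ = (nm K v : ℝ) ^ ((i : ℝ) / 2) :=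
    hb.mono fun v hv j => hv.1.norm j
  have hnorm : ∀ᶠ v in cofinite, ∀ j, ‖prods r (β v) j‖ =
      (nm K v : ℝ) ^ ((r : ℝ) * ((i : ℝ) / 2)) := by
    refine hnorm0.mono fun v hv j => ?_
    unfold prods
    rw [norm_prod, Finset.prod_congr rfl fun i _ => hv _, Finset.prod_const, Finset.card_univ,
      Fintype.card_fin, mul_comm, Real.rpow_mul (hq0 v).le, Real.rpow_natCast]
  have htF : ∀ᶠ v in cofinite, ((tF X d i N K v : ℝ) : ℂ) =
      (∑ j, β v j) * ((nm K v : ℕ) : ℂ) ^ (-((((i : ℝ) / 2 : ℝ)) : ℂ)) := by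
    refine hb.mono fun v hv => ?_
    have h3 : Eig X d i v (alp X d i N K v) := pick_spec ⟨_, hv.1⟩
    have h4 := hv.1.unique' hi h3
    have h5 : ∑ j, alp X d i N K v j = ∑ j, β v j := (congrArg Multiset.sum h4).symm
    have h6 := tr_eq (w := (i : ℝ) / 2) (α := alp X d i N K) (fun j => h3.norm j) (h3.im hi)
    rw [h5] at h6
    exact h6
  have hsum : ∀ᶠ v in cofinite, ∑ j, prods r (β v) j =
      (((tF X d i N K v) ^ r : ℝ) : ℂ) *
        ((((nm K v : ℝ) ^ ((r : ℝ) * ((i : ℝ) / 2)) : ℝ)) : ℂ) := by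
    filter_upwards [htF] with v hv
    have hqC : ((nm K v : ℕ) : ℂ) ≠ 0 := by
      have := (hq0 v).ne'
      exact_mod_cast this
    have h1 : ∑ j, β v j = ((tF X d i N K v : ℝ) : ℂ) *
        ((((nm K v : ℝ) ^ ((i : ℝ) / 2) : ℝ)) : ℂ) := by
      rw [hv, mul_assoc, Complex.ofReal_cpow (hq0 v).le]
      have e : (((nm K v : ℝ)) : ℂ) = ((nm K v : ℕ) : ℂ) := by push_cast; rfl
      rw [e, ← Complex.cpow_add _ _ hqC, neg_add_cancel, Complex.cpow_zero, mul_one]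
    rw [prods_sum, h1, mul_pow, mul_comm (r : ℝ), Real.rpow_mul (hq0 v).le, Real.rpow_natCast]
    push_cast
    rfl
  have hreal : ∀ᶠ v in cofinite, (∑ j, prods r (β v) j).im = 0 := by
    refine hsum.mono fun v hv => ?_
    rw [hv, ← Complex.ofReal_mul, Complex.ofReal_im]
  have hsz := size_corr ((r : ℝ) * ((i : ℝ) / 2)) (fun v => prods r (β v)) hnorm hreal U χ hx1 τ B
    (hb.mono fun v hv g hg z => by
      rw [hv.2 g hg z]
      exact (prods_prod (β v) (fun y => LinearMap.det (1 - (y * z) • χ g⁻¹))).symm)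
    (by
      rw [edge_gen_at]
      exact hB.2) (LFun B) (fun s _ => rfl) σ hσ
  simp only [edge_gen_at] at hsz
  refine ⟨hsz.1, ?_⟩
  have htr : ∀ᶠ v in cofinite, tr ((r : ℝ) * ((i : ℝ) / 2)) (fun v => prods r (β v)) v =
      (tF X d i N K v) ^ r := by
    filter_upwards [hnorm, hreal, hsum] with v h1 h2 h3
    have h5 := tr_eq (w := (r : ℝ) * ((i : ℝ) / 2)) (α := fun v => prods r (β v)) (v := v) h1 h2
    rw [h3] at h5
    have h7 : ((((nm K v : ℝ) ^ ((r : ℝ) * ((i : ℝ) / 2)) : ℝ)) : ℂ) *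
        ((nm K v : ℕ) : ℂ) ^ (-((((r : ℝ) * ((i : ℝ) / 2) : ℝ)) : ℂ)) = 1 := by
      have hqC : ((nm K v : ℕ) : ℂ) ≠ 0 := by
        have := (hq0 v).ne'
        exact_mod_cast this
      rw [Complex.ofReal_cpow (hq0 v).le]
      have e : (((nm K v : ℝ)) : ℂ) = ((nm K v : ℕ) : ℂ) := by push_cast; rfl
      rw [e, ← Complex.cpow_add _ _ hqC, add_neg_cancel, Complex.cpow_zero]
    rw [mul_assoc, h7, mul_one] at h5
    exact_mod_cast h5
  have hcong := EP_cofinite (K := K)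
    (φ := fun v => (tF X d i N K v) ^ r * RR χ τ σ v)
    (ψ := fun v => tr ((r : ℝ) * ((i : ℝ) / 2)) (fun v => prods r (β v)) v * RR χ τ σ v)
    (B := (N : ℝ) ^ r * n) (C := ((N ^ r : ℕ) : ℝ) * n)
    (fun v => by
      rw [abs_mul, abs_pow]
      exact mul_le_mul (pow_le_pow_left₀ (abs_nonneg _) (abs_tr_le _ _ _) r)
        (abs_RR_le U χ hx1 _ _ _) (abs_nonneg _) (by positivity))
    (fun v => by
      rw [abs_mul]
      exact mul_le_mul (abs_tr_le _ _ _) (abs_RR_le U χ hx1 _ _ _) (abs_nonneg _) (by positivity))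
    (htr.mono fun v hv => by rw [hv])
  have h8 := hcong.add hsz.2
  rw [add_zero] at h8
  refine h8.congr fun ε => ?_
  have e : (fun v => ((tr ((r : ℝ) * ((i : ℝ) / 2)) (fun v => prods r (β v)) v : ℂ) *
      (χ.character (σ v)⁻¹ * zz τ v)).re) =
      fun v => tr ((r : ℝ) * ((i : ℝ) / 2)) (fun v => prods r (β v)) v * RR χ τ σ v := by
    funext v
    rw [Complex.re_ofReal_mul]
    rfl
  rw [e]
  unfold size
  ring


/-- **The relation between the sizes.** -/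
theorem relation (hi : i ≤ 2 * d) {n : ℕ} (χ : Representation ℂ (GK K) (Fin n → ℂ))
    (hχ : IsArtin χ) (τ : ℝ) {r : ℕ} {Λ : Finset ℕ} {a : ℕ → ℝ} {δ : ℝ}
    (hδ : ∀ t : ℝ, |t| ≤ N → |t ^ r - ∑ l ∈ Λ, a l * t ^ l| ≤ δ)
    (B : ℕ → HeightOneSpectrum (𝓞 K) → ℂ[X]) (hr : IsPowerSystemAt X d i N χ τ r (B r))
    (hB : ∀ l ∈ Λ, IsPowerSystemAt X d i N χ τ l (B l)) {η : ℝ} (hη : 0 < η) :
    ∀ᶠ ε : ℝ in 𝓝[>] 0, |size (r * i) τ (B r) ε - ∑ l ∈ Λ, a l * size (l * i) τ (B l) ε| ≤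
      n * δ + η := by
  classical
  choose σ hσ using exists_isFrob (F := K)
  obtain ⟨U, hUn, hU, hx1⟩ := exists_common (κ := Unit) (n := fun _ => n)
    (fun _ => χ) fun _ => hχ
  have hx1 : ∀ u ∈ U, χ u = 1 := hx1 ()
  have hfin : Finite (GK K ⧸ U) := Subgroup.quotient_finite_of_isOpen U hU
  set T : HeightOneSpectrum (𝓞 K) → ℝ := tF X d i N K with hT
  have hTb : ∀ v, |T v| ≤ (N : ℝ) := fun v => abs_tr_le _ _ _
  have hδ0 : 0 ≤ δ := (abs_nonneg _).trans (hδ 0 (by rw [abs_zero]; positivity))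
  have hb : ∀ m v, |T v ^ m * RR χ τ σ v| ≤ (N : ℝ) ^ m * n := by
    intro m v
    rw [abs_mul, abs_pow]
    exact mul_le_mul (pow_le_pow_left₀ (abs_nonneg _) (hTb v) _)
      (abs_RR_le U χ hx1 _ _ _) (abs_nonneg _) (by positivity)
  have hr' := (power_size_at hi hσ r χ hχ τ (B r) hr).2
  have h1 : Tendsto (fun ε : ℝ => ∑ l ∈ Λ, a l * ((EP (nm K) ε fun v =>
      T v ^ l * RR χ τ σ v) / lam ε - size (l * i) τ (B l) ε)) (𝓝[>] 0) (𝓝 0) := by
    have h2 := tendsto_finsetSum (f := fun l ε => a l * ((EP (nm K) ε fun v =>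
      T v ^ l * RR χ τ σ v) / lam ε - size (l * i) τ (B l) ε)) (a := fun l => a l * 0) Λ
      fun l hl => ((power_size_at hi hσ l χ hχ τ (B l) (hB l hl)).2).const_mul (a l)
    simpa using h2
  have h1' := hr'.sub h1
  rw [sub_zero] at h1'
  have hA : Tendsto (fun ε : ℝ => n * δ * ((EP (nm K) ε fun _ => 1) / lam ε)) (𝓝[>] 0)
      (𝓝 (n * δ * 1)) := (EP_one K).const_mul _
  rw [mul_one] at hA
  filter_upwards [(Metric.tendsto_nhds.1 h1') (η / 2) (by positivity),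
    (Metric.tendsto_nhds.1 hA) (η / 2) (by positivity), lam_tendsto.eventually_gt_atTop 0,
    self_mem_nhdsWithin] with ε h2 hA' h3 h4
  have hε : (0 : ℝ) < ε := h4
  rw [Real.dist_eq, sub_zero] at h2
  rw [Real.dist_eq] at hA'
  have hS : (EP (nm K) ε fun v => ∑ l ∈ Λ, a l * (T v ^ l * RR χ τ σ v)) =
      ∑ l ∈ Λ, a l * EP (nm K) ε fun v => T v ^ l * RR χ τ σ v := by
    rw [EP_sum normSys hε Λ (fun l v => a l * (T v ^ l * RR χ τ σ v))
      (fun l => |a l| * ((N : ℝ) ^ l * n)) (by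
        intro k _ v
        rw [abs_mul]
        exact mul_le_mul_of_nonneg_left (hb k v) (abs_nonneg _))]
    exact Finset.sum_congr rfl fun k _ => EP_const_mul _ _
  have hSb : ∀ v, |∑ l ∈ Λ, a l * (T v ^ l * RR χ τ σ v)| ≤ ∑ l ∈ Λ, |a l| * ((N : ℝ) ^ l * n) := by
    intro v
    refine (Finset.abs_sum_le_sum_abs _ _).trans (Finset.sum_le_sum fun l _ => ?_)
    rw [abs_mul]
    exact mul_le_mul_of_nonneg_left (hb l v) (abs_nonneg _)
  have hD : (EP (nm K) ε fun v => T v ^ r * RR χ τ σ v +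
      (-1) * ∑ l ∈ Λ, a l * (T v ^ l * RR χ τ σ v)) =
      (EP (nm K) ε fun v => T v ^ r * RR χ τ σ v) -
        ∑ l ∈ Λ, a l * EP (nm K) ε fun v => T v ^ l * RR χ τ σ v := by
    rw [EP_add normSys hε (hb r) (B' := ∑ l ∈ Λ, |a l| * ((N : ℝ) ^ l * n)) (fun v => by
      rw [abs_mul, abs_neg, abs_one, one_mul]
      exact hSb v), EP_const_mul, hS]
    ring
  have h5 : |EP (nm K) ε fun v => T v ^ r * RR χ τ σ v +
      (-1) * ∑ l ∈ Λ, a l * (T v ^ l * RR χ τ σ v)| ≤ n * δ * EP (nm K) ε fun _ => 1 := by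
    rw [← EP_const_mul]
    refine EP_abs_le (B := n * δ) (fun v => ?_) (fun v => ?_) hε
    · rw [mul_one, abs_of_nonneg (by positivity)]
    · rw [mul_one]
      have e : T v ^ r * RR χ τ σ v + (-1) * ∑ l ∈ Λ, a l * (T v ^ l * RR χ τ σ v) =
          (T v ^ r - ∑ l ∈ Λ, a l * T v ^ l) * RR χ τ σ v := by
        rw [sub_mul, Finset.sum_mul]
        have : ∑ l ∈ Λ, a l * (T v ^ l * RR χ τ σ v) = ∑ l ∈ Λ, a l * T v ^ l * RR χ τ σ v :=
          Finset.sum_congr rfl fun l _ => by ring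
        rw [this]
        ring
      rw [e, abs_mul, mul_comm]
      exact mul_le_mul (abs_RR_le U χ hx1 _ _ _) (hδ _ (hTb v)) (abs_nonneg _)
        (Nat.cast_nonneg _)
  rw [hD] at h5
  set P := (EP (nm K) ε fun v => T v ^ r * RR χ τ σ v)
  set Q := ∑ l ∈ Λ, a l * EP (nm K) ε fun v => T v ^ l * RR χ τ σ v with hQ
  have h7 : ∑ l ∈ Λ, a l * ((EP (nm K) ε fun v => T v ^ l * RR χ τ σ v) / lam ε -
      size (l * i) τ (B l) ε) = Q / lam ε - ∑ l ∈ Λ, a l * size (l * i) τ (B l) ε := by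
    rw [hQ, Finset.sum_div, ← Finset.sum_sub_distrib]
    refine Finset.sum_congr rfl fun k _ => ?_
    ring
  rw [h7] at h2
  have h8 : |(P - Q) / lam ε| ≤ n * δ * ((EP (nm K) ε fun _ => 1) / lam ε) := by
    rw [abs_div, abs_of_pos h3, ← mul_div_assoc]
    exact div_le_div_of_nonneg_right h5 h3.le
  have h9 := (abs_lt.1 hA').2
  have h10 : (P - Q) / lam ε = P / lam ε - Q / lam ε := sub_div _ _ _
  rw [h10] at h8
  rw [abs_le] at h8 ⊢
  rw [abs_lt] at h2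
  constructor <;> linarith [h8.1, h8.2, h2.1, h2.2]

end

end Pool.Agent.U544.MZ
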